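import Pool.Agent.Helper58.LD.Def

/-!
# Statements of the parts of LD (swarm)
-/

set_option autoImplicit false
set_option linter.unusedSectionVars false

open Polynomial Finset DirectSum

namespace Pool.Agent.Helper58.LD.Spec

open Pool.Agent.Helper766_CF Pool.Agent.Helper766_CG Pool.Agent.Helper766_CH
open Pool.Agent.Helper58.CS Pool.Agent.Helper58.OP Pool.Agent.Helper58.SH Pool.Agent.Helper58.BG
open Pool.Agent.Helper58.LC Pool.Agent.Helper58.LD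

/-- D0. The Galois covering which splits `P`. -/
theorem exists_cover (S : Type) [CommRing S] [IsDomain S] [IsIntegrallyClosed S] [Algebra ℂ S]
    (hfg : Algebra.FiniteType ℂ S) (P : S[X]) (hP : P.Monic)
    (hirr : Irreducible (P.map (algebraMap S (FractionRing S))))
    (h : ∀ 𝔭 : Ideal S, 𝔭.IsPrime → 𝔭.height = 1 → ∃ (K₀ : Type) (_ : Field K₀) (_ : Algebra ℂ K₀)
      (_ : IsAlgClosed K₀) (f : S →ₐ[ℂ] K₀[X]), Function.Injective f ∧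
      (∀ a, (f a).coeff 0 = 0 ↔ a ∈ 𝔭) ∧ (∃ a ∈ 𝔭, (f a).coeff 1 ≠ 0) ∧
      ∀ ρ : AlgebraicClosure (FractionRing K₀[X]),
        P.eval₂ ((algebraMap K₀[X] (AlgebraicClosure (FractionRing K₀[X]))).comp
          (f : S →+* K₀[X])) ρ = 0 → ∃ p : K₀[X], algebraMap K₀[X] _ p = ρ) :
    ∃ (B : Type) (_ : CommRing B) (_ : Algebra ℂ B) (_ : Algebra S B) (_ : IsScalarTower ℂ S B),
      Cov S B ∧ Finite (B ≃ₐ[S] B) ∧
      (∀ b : B, (∀ γ : B ≃ₐ[S] B, γ b = b) → b ∈ Set.range (algebraMap S B)) ∧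
      ∃ s : Multiset B, P.map (algebraMap S B) = (s.map fun a => X - C a).prod ∧
        (∀ a ∈ s, ∀ a' ∈ s, ∃ γ : B ≃ₐ[S] B, γ a = a') ∧
        ∀ b, ∃ r : S, r ≠ 0 ∧ algebraMap S B r * b ∈ Algebra.adjoin S {a | a ∈ s} := sorry

variable {R : Type} [CommRing R] [IsDomain R] [Algebra ℂ R] {𝒜 : ℕ → Submodule ℂ R}
  [GradedAlgebra 𝒜] {br : R →ₗ[ℂ] R →ₗ[ℂ] R} {B : Type} [CommRing B] [Algebra ℂ B]
  [Algebra R B] [IsScalarTower ℂ R B]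

/-- D1. Derivations extend to the covering. -/
theorem exists_ext [IsIntegrallyClosed R] (hfg : Algebra.FiniteType ℂ R) (hB : Cov R B)
    (δ : R →ₗ[ℂ] B) (hδ : IsDer (iB R B) δ) :
    ∃ D : Derivation ℂ B B, ∀ r, D (algebraMap R B r) = δ r := sorry

/-- D2. The extension is unique. -/
theorem der_uniq (hB : Cov R B) {S : Type} [CommRing S] [IsDomain S] [Algebra ℂ S]
    {x : B →ₐ[ℂ] S} (hx : Function.Injective x) {δ : B →ₗ[ℂ] S} (hδ : IsDer x δ)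
    (h0 : ∀ r, δ (algebraMap R B r) = 0) (b : B) : δ b = 0 := sorry

/-- D3a. There are no nonzero Poisson ideals in the ideal of a point off the vertex. -/
theorem poisson_ideal (C : Core 𝒜 br) {z : R →ₐ[ℂ] ℂ} (hz : ¬ IsVertex 𝒜 z) (J : Ideal R)
    (hJ : ∀ a, ∀ r ∈ J, br a r ∈ J) (hJz : ∀ r ∈ J, z r = 0) : J = ⊥ := sorry

/-- D3. The iterated Hamiltonian derivatives of a nonzero element do not all vanish at a point. -/
theorem exists_word (C : Core 𝒜 br) (hB : Cov R B) {Dh : R → Derivation ℂ B B}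
    (hD : HamB br Dh) {q : B →ₐ[ℂ] ℂ} (hq : NVB 𝒜 q) {g : B} (hg : g ≠ 0) :
    ∃ w : List R, q (w.foldr (fun a b => Dh a b) g) ≠ 0 := sorry

/-- D4. The automorphisms over `R` act freely. -/
theorem free (C : Core 𝒜 br) (hB : Cov R B) {Dh : R → Derivation ℂ B B}
    (hD : HamB br Dh) {q : B →ₐ[ℂ] ℂ} (hq : NVB 𝒜 q) {γ : B ≃ₐ[R] B}
    (hγ : ∀ b, q (γ b) = q b) (b : B) : γ b = b := sorry

/-- D5. The covering is unramified off the vertex. -/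
theorem unram (C : Core 𝒜 br) (hB : Cov R B) {Dh : R → Derivation ℂ B B}
    (hD : HamB br Dh) {q : B →ₐ[ℂ] ℂ} (hq : NVB 𝒜 q) {δ : B →ₗ[ℂ] ℂ} (hδ : IsDer q δ)
    (h0 : ∀ r, δ (algebraMap R B r) = 0) (b : B) : δ b = 0 := sorry

/-- D6. The Poisson bracket extends. -/
theorem exists_brB [IsIntegrallyClosed R] (C : Core 𝒜 br) (hB : Cov R B) :
    ∃ brB : B →ₗ[ℂ] B →ₗ[ℂ] B, BrB br brB := sorry

/-- D7. The grading extends. -/
theorem exists_grading (C : Core 𝒜 br) (hB : Cov R B) {E : Derivation ℂ B B}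
    (hE : ∀ r, E (algebraMap R B r) = algebraMap R B (euler 𝒜 r)) {S₀ : Set B}
    (hS : ∀ s ∈ S₀, E s = s)
    (hgen : ∀ b, ∃ r : R, r ≠ 0 ∧ algebraMap R B r * b ∈ Algebra.adjoin R S₀) :
    ∃ (ℬ : ℕ → Submodule ℂ B) (_ : GradedAlgebra ℬ), (∀ k, ∀ a ∈ 𝒜 k, algebraMap R B a ∈ ℬ k) ∧
      (∀ k b, b ∈ ℬ k ↔ E b = (k : ℂ) • b) ∧ ∀ b ∈ ℬ 0, ∃ c : ℂ, b = algebraMap ℂ B c := sorry

/-- D8a. A point of `B` off the vertex lies over a point of `R` off the vertex. -/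
theorem nvb (C : Core 𝒜 br) (hB : Cov R B) {ℬ : ℕ → Submodule ℂ B} [GradedAlgebra ℬ]
    (hℬ : ∀ k, ∀ a ∈ 𝒜 k, algebraMap R B a ∈ ℬ k) (q : B →ₐ[ℂ] ℂ) (hq : ¬ IsVertex ℬ q) :
    NVB 𝒜 q := sorry

/-- D8. The covering satisfies the axioms. -/
theorem coreB [IsIntegrallyClosed R] (C : Core 𝒜 br) (hB : Cov R B)
    {brB : B →ₗ[ℂ] B →ₗ[ℂ] B} (hbr : BrB br brB) {ℬ : ℕ → Submodule ℂ B} [GradedAlgebra ℬ]
    {E : Derivation ℂ B B} (hE : ∀ r, E (algebraMap R B r) = algebraMap R B (euler 𝒜 r))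
    (hℬ : ∀ k, ∀ a ∈ 𝒜 k, algebraMap R B a ∈ ℬ k) (hEℬ : ∀ k b, b ∈ ℬ k ↔ E b = (k : ℂ) • b)
    (hconst : ∀ b ∈ ℬ 0, ∃ c : ℂ, b = algebraMap ℂ B c) : Core ℬ brB := sorry

/-- D9. Coverings of the affine line are trivial. -/
theorem triv [IsIntegrallyClosed R] (C : Core 𝒜 br) (hB : Cov R B) {K : Type} [Field K]
    [Algebra ℂ K] [IsAlgClosed K] (g : R →ₐ[ℂ] K[X]) (hg : EN 𝒜 g) (hginj : Function.Injective g)
    (p : B →ₐ[ℂ] AlgebraicClosure (FractionRing K[X]))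
    (hp : ∀ r, p (algebraMap R B r) = algebraMap K[X] _ (g r)) :
    ∃ gB : B →ₐ[ℂ] K[X], ∀ b, algebraMap K[X] _ (gB b) = p b := sorry

/-- D10a. The square of the speed is a root along the conic. -/
theorem root_along [IsIntegrallyClosed R] (C : Core 𝒜 br) (hfree : Free 𝒜) {K : Type} [Field K]
    [Algebra ℂ K] [IsAlgClosed K] (c : Cu 𝒜 K 2) {l : K} (hl : Speed br c l) (z : R →ₐ[ℂ] ℂ)
    (hzv : ¬ IsVertex 𝒜 z) (hz : ∀ r, (c.f r).coeff 0 = algebraMap ℂ K (z r))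
    (hinj : Function.Injective c.p1) (P : R[X]) (hP : P.Monic)
    (hirr : Irreducible (P.map (algebraMap R (FractionRing R))))
    (hroot : P.eval₂ (c.p1 : R →+* K) (l ^ 2) = 0) :
    P.eval₂ (c.g : R →+* K[X]) (Polynomial.C (l ^ 2)) = 0 := sorry

/-- D10b. The conic lifts to the covering. -/
theorem exists_lift (C : Core 𝒜 br) (hB : Cov R B) {K : Type} [Field K]
    [Algebra ℂ K] [IsAlgClosed K] (g : R →ₐ[ℂ] K[X]) (hginj : Function.Injective g)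
    {P : R[X]} {s : Multiset B}
    (hs : P.map (algebraMap R B) = (s.map fun a => X - Polynomial.C a).prod)
    (htr : ∀ a ∈ s, ∀ a' ∈ s, ∃ γ : B ≃ₐ[R] B, γ a = a') {κ : B} (hκ : κ ∈ s) {v : K[X]}
    (hv : P.eval₂ (g : R →+* K[X]) v = 0)
    (htriv : ∀ p : B →ₐ[ℂ] AlgebraicClosure (FractionRing K[X]),
      (∀ r, p (algebraMap R B r) = algebraMap K[X] _ (g r)) →
      ∃ gB : B →ₐ[ℂ] K[X], ∀ b, algebraMap K[X] _ (gB b) = p b) :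
    ∃ gB : B →ₐ[ℂ] K[X], (∀ r, gB (algebraMap R B r) = g r) ∧ gB κ = v := sorry

/-- D10c. The bracket along the lifted conic. -/
theorem ham_lift (C : Core 𝒜 br) (hB : Cov R B) {brB : B →ₗ[ℂ] B →ₗ[ℂ] B} (hbr : BrB br brB)
    {K : Type} [Field K] [Algebra ℂ K] [IsAlgClosed K] (c : Cu 𝒜 K 2) {l : K}
    (hl : Speed br c l) (z : R →ₐ[ℂ] ℂ) (hz : ∀ r, (c.f r).coeff 0 = algebraMap ℂ K (z r))
    (hinj : Function.Injective c.p1) {gB : B →ₐ[ℂ] K[X]}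
    (hgB : ∀ r, gB (algebraMap R B r) = c.g r) {κ : B} (hκ : gB κ = Polynomial.C (l ^ 2)) (b : B) :
    gB (brB κ b) = -Polynomial.C l * derivative (gB b) := sorry

/-- D10d. Degrees and the end point of the lifted conic. -/
theorem deg_lift (C : Core 𝒜 br) (hB : Cov R B) {ℬ : ℕ → Submodule ℂ B} [GradedAlgebra ℬ]
    (hℬ : ∀ k, ∀ a ∈ 𝒜 k, algebraMap R B a ∈ ℬ k)
    {K : Type} [Field K] [Algebra ℂ K] [IsAlgClosed K] (c : Cu 𝒜 K 2) (z : R →ₐ[ℂ] ℂ)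
    (hz : ∀ r, (c.f r).coeff 0 = algebraMap ℂ K (z r)) {gB : B →ₐ[ℂ] K[X]}
    (hgB : ∀ r, gB (algebraMap R B r) = c.g r) :
    ∃ zB : B →ₐ[ℂ] ℂ, (∀ r, zB (algebraMap R B r) = z r) ∧
      ∀ k, ∀ b ∈ ℬ k, (gB b).natDegree ≤ 2 * k ∧ (gB b).coeff (2 * k) = algebraMap ℂ K (zB b) :=
  sorry

/-- D10e. The Euler derivation on the root. -/
theorem euler_root (C : Core 𝒜 br) (hB : Cov R B) {K : Type} [Field K] [Algebra ℂ K]
    [IsAlgClosed K] (c : Cu 𝒜 K 2) {l : K} (hl : Speed br c l) (z : R →ₐ[ℂ] ℂ)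
    (hz : ∀ r, (c.f r).coeff 0 = algebraMap ℂ K (z r)) (hinj : Function.Injective c.p1)
    {E : Derivation ℂ B B} (hE : ∀ r, E (algebraMap R B r) = algebraMap R B (euler 𝒜 r))
    {x : B →ₐ[ℂ] K} (hx : ∀ r, x (algebraMap R B r) = c.p1 r) {κ : B} (hκ : x κ = l ^ 2) :
    E κ = κ := sorry

/-- D11. A graded automorphism of prime order of a globally generated ring has a fixed point. -/
theorem fixed {ℬ : ℕ → Submodule ℂ B} [GradedAlgebra ℬ] [IsDomain B]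
    {brB : B →ₗ[ℂ] B →ₗ[ℂ] B} (C : Core ℬ brB)
    (gg : ∀ q : B →ₐ[ℂ] ℂ, ¬ IsVertex ℬ q → ∃ a ∈ ℬ 1, q a ≠ 0) (hne : ∃ q : B →ₐ[ℂ] ℂ,
      ¬ IsVertex ℬ q) (γ : B ≃ₐ[ℂ] B) (hγ : ∀ k, ∀ b ∈ ℬ k, γ b ∈ ℬ k) {p : ℕ} (hp : p.Prime)
    (hγp : ∀ b, (γ : B → B)^[p] b = b) :
    ∃ q : B →ₐ[ℂ] ℂ, ¬ IsVertex ℬ q ∧ ∃ t : ℂ, ∀ k, ∀ b ∈ ℬ k, q (γ b) = t ^ k * q b := sorry

end Pool.Agent.Helper58.LD.Spec
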